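import Mathlib

/-! Two lemmas for (CYC) of `T9h30/BF/Spec.lean`: splitting and reality in subfields of the
cyclotomic field. -/

set_option autoImplicit false

namespace Pool.Agent.T9h89.BF

open NumberField IsDedekindDomain Polynomial

variable {C : Type} [Field C] [NumberField C] {l : ℕ} [NeZero l] [IsCyclotomicExtension {l} ℚ C]
  {ζ : C} (hζ : IsPrimitiveRoot ζ l) (F : IntermediateField ℚ C) (s : C ≃ₐ[ℚ] C)
  (hs : ∀ x ∈ F, s x = x)

include hζ in
/-- two homomorphisms from the ring of integers which agree at `ζ` are equal -/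
theorem hom_ext {R : Type} [CommRing R] (f g : 𝓞 C →+* R) (h : f hζ.toInteger = g hζ.toInteger) :
    f = g := by
  have h1 : f.toIntAlgHom = g.toIntAlgHom := by
    apply hζ.integralPowerBasis.algHom_ext
    rw [hζ.integralPowerBasis_gen]
    exact h
  ext x
  exact congrArg (fun φ : 𝓞 C →ₐ[ℤ] R => φ x) h1

include hζ hs in
theorem split (q : ℕ) (hq : q.Prime) (hsζ : s ζ = ζ ^ q) (v : HeightOneSpectrum (𝓞 F))
    (hv : (q : 𝓞 F) ∈ v.asIdeal) : Ideal.absNorm v.asIdeal = q := by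
  classical
  have := v.isMaximal
  have : Fact q.Prime := ⟨hq⟩
  obtain ⟨P, hPmax, hPover⟩ :=
    Ideal.exists_maximal_ideal_liesOver_of_isIntegral (S := 𝓞 C) v.asIdeal
  have hPq : ((q : ℕ) : 𝓞 C) ∈ P := by
    have h1 : algebraMap (𝓞 F) (𝓞 C) (q : 𝓞 F) ∈ P := by
      rw [← Ideal.mem_comap]
      have := hPover.over
      rw [Ideal.under_def] at this
      rw [← this]
      exact hv
    simpa using h1
  let _ : Field (𝓞 C ⧸ P) := Ideal.Quotient.field P
  have : CharP (𝓞 C ⧸ P) q := by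
    have h1 : ((q : ℕ) : 𝓞 C ⧸ P) = 0 := by
      rw [← map_natCast (Ideal.Quotient.mk P), Ideal.Quotient.eq_zero_iff_mem]
      exact hPq
    obtain ⟨p, hp⟩ := CharP.exists (𝓞 C ⧸ P)
    have h2 := (CharP.cast_eq_zero_iff (𝓞 C ⧸ P) p q).1 h1
    rcases (Nat.dvd_prime hq).1 h2 with h3 | h3
    · exact absurd h3 (CharP.char_ne_one (𝓞 C ⧸ P) p)
    · rwa [h3] at hp
  let S : 𝓞 C →+* 𝓞 C := RingOfIntegers.mapRingHom (s : C →+* C)
  have hS : ∀ x : 𝓞 C, ((S x : 𝓞 C) : C) = s (x : C) := fun x => rfl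
  have key : (Ideal.Quotient.mk P).comp S = (frobenius (𝓞 C ⧸ P) q).comp (Ideal.Quotient.mk P) := by
    apply hom_ext hζ
    have h1 : S hζ.toInteger = hζ.toInteger ^ q := by
      apply RingOfIntegers.ext
      rw [hS]
      exact hsζ
    rw [RingHom.comp_apply, RingHom.comp_apply, h1, map_pow, frobenius_def]
  have hfix : ∀ y : 𝓞 F, y ^ q - y ∈ v.asIdeal := by
    intro y
    have h1 := congrArg (fun φ : 𝓞 C →+* 𝓞 C ⧸ P => φ (algebraMap (𝓞 F) (𝓞 C) y)) key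
    simp only [RingHom.comp_apply, frobenius_def] at h1
    have h2 : S (algebraMap (𝓞 F) (𝓞 C) y) = algebraMap (𝓞 F) (𝓞 C) y := by
      apply RingOfIntegers.ext
      rw [hS]
      exact hs _ (y : F).2
    rw [h2, ← map_pow, eq_comm, Ideal.Quotient.eq, ← map_pow, ← map_sub] at h1
    have := hPover.over
    rw [Ideal.under_def] at this
    rw [this, Ideal.mem_comap]
    exact h1
  let _ : Field (𝓞 F ⧸ v.asIdeal) := Ideal.Quotient.field v.asIdeal
  have : Finite (𝓞 F ⧸ v.asIdeal) := Ring.HasFiniteQuotients.finiteQuotient v.ne_bot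
  let _ : Fintype (𝓞 F ⧸ v.asIdeal) := Fintype.ofFinite _
  have : CharP (𝓞 F ⧸ v.asIdeal) q := by
    have h1 : ((q : ℕ) : 𝓞 F ⧸ v.asIdeal) = 0 := by
      rw [← map_natCast (Ideal.Quotient.mk v.asIdeal), Ideal.Quotient.eq_zero_iff_mem]
      exact hv
    obtain ⟨p, hp⟩ := CharP.exists (𝓞 F ⧸ v.asIdeal)
    have h2 := (CharP.cast_eq_zero_iff (𝓞 F ⧸ v.asIdeal) p q).1 h1
    rcases (Nat.dvd_prime hq).1 h2 with h3 | h3
    · exact absurd h3 (CharP.char_ne_one (𝓞 F ⧸ v.asIdeal) p)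
    · rwa [h3] at hp
  have hall : ∀ z : 𝓞 F ⧸ v.asIdeal, z ^ q = z := by
    intro z
    obtain ⟨y, rfl⟩ := Ideal.Quotient.mk_surjective z
    rw [← map_pow, Ideal.Quotient.eq]
    exact hfix y
  have hle : Fintype.card (𝓞 F ⧸ v.asIdeal) ≤ q := by
    have hdeg : (X ^ q - X : (𝓞 F ⧸ v.asIdeal)[X]).natDegree = q :=
      FiniteField.X_pow_card_sub_X_natDegree_eq _ hq.one_lt
    have hne : (X ^ q - X : (𝓞 F ⧸ v.asIdeal)[X]) ≠ 0 :=
      FiniteField.X_pow_card_sub_X_ne_zero _ hq.one_lt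
    have h1 : (Finset.univ : Finset (𝓞 F ⧸ v.asIdeal)).card ≤ (X ^ q - X : (𝓞 F ⧸ v.asIdeal)[X]).natDegree := by
      apply Polynomial.card_le_degree_of_subset_roots
      intro z _
      rw [mem_roots hne, IsRoot.def]
      simp [hall z]
    rwa [hdeg] at h1
  obtain ⟨n, _, hn⟩ := FiniteField.card (𝓞 F ⧸ v.asIdeal) q
  have hge : q ≤ Fintype.card (𝓞 F ⧸ v.asIdeal) := by
    rw [hn]
    exact Nat.le_self_pow n.ne_zero q
  rw [Ideal.absNorm_apply, Submodule.cardQuot_apply, Nat.card_eq_fintype_card]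
  convert le_antisymm hle hge

include hζ hs in
theorem real (hsζ : s ζ = ζ⁻¹) (w : InfinitePlace F) : w.IsReal := by
  have halg : Algebra.IsAlgebraic F C := inferInstance
  rw [InfinitePlace.isReal_iff]
  set φ := w.embedding with hφ
  let _ : Algebra F ℂ := φ.toAlgebra
  let ψ : C →ₐ[F] ℂ := IsAlgClosed.lift
  have hψ : ∀ x : F, ψ (x : C) = φ x := fun x => ψ.commutes x
  have hψ1 : (ψ ζ) ^ l = 1 := by rw [← map_pow, hζ.pow_eq_one, map_one]
  have hnorm : ‖ψ ζ‖ = 1 := Complex.norm_eq_one_of_pow_eq_one hψ1 (NeZero.ne l)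
  have hconj : (starRingEnd ℂ) (ψ ζ) = (ψ ζ)⁻¹ := by
    rw [Complex.inv_def, Complex.normSq_eq_norm_sq, hnorm]
    simp
  have key : ((starRingEnd ℂ).comp (ψ : C →+* ℂ)).toRatAlgHom =
      ((ψ : C →+* ℂ).comp (s : C →+* C)).toRatAlgHom := by
    apply (hζ.powerBasis ℚ).algHom_ext
    rw [hζ.powerBasis_gen ℚ]
    simp only [RingHom.toRatAlgHom_apply, RingHom.comp_apply]
    change (starRingEnd ℂ) (ψ ζ) = ψ (s ζ)
    rw [hsζ, hconj, map_inv₀]
  rw [ComplexEmbedding.isReal_iff]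
  ext x
  have h1 := congrArg (fun f : C →ₐ[ℚ] ℂ => f (x : C)) key
  simp only [RingHom.toRatAlgHom_apply, RingHom.comp_apply] at h1
  change (starRingEnd ℂ) (ψ (x : C)) = ψ (s (x : C)) at h1
  rw [hs _ x.2, hψ] at h1
  exact h1

end Pool.Agent.T9h89.BF
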